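import Pool.Agent.LibPentagon.Induct

set_option autoImplicit false

open Finset SimpleGraph Pool.Agent.LibPentagon

namespace Pool.Agent.Results.MP_880c07_co.PentagonsBooks

/-- The book `B_k`: an edge (the two vertices `Sum.inl 0`, `Sum.inl 1`) joined completely to `k`
further pairwise non-adjacent vertices (`Sum.inr _`). -/
def book (k : ℕ) : SimpleGraph (Fin 2 ⊕ Fin k) where
  Adj x y := x ≠ y ∧ (x.isLeft ∨ y.isLeft)
  symm := ⟨fun _ _ h => ⟨h.1.symm, h.2.symm⟩⟩
  loopless := ⟨fun _ h => h.1 rfl⟩

/-- In a `B_k`-free graph, adjacent vertices have fewer than `k` common neighbours. -/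
theorem codeg_of_free {V : Type*} [Fintype V] [DecidableEq V] (G : SimpleGraph V)
    [DecidableRel G.Adj] {k : ℕ} (hG : (book k).Free G) : CodegLE G k := by
  intro u v huv
  by_contra hcon
  push Not at hcon
  apply hG
  have hcard : Fintype.card (Fin k) ≤
      Fintype.card {w // w ∈ G.neighborFinset u ∩ G.neighborFinset v} := by
    rw [Fintype.card_fin, Fintype.card_coe]
    exact hcon.le
  obtain ⟨e⟩ := Function.Embedding.nonempty_of_card_le hcard
  have he : ∀ i, G.Adj u (e i) ∧ G.Adj v (e i) := by
    intro i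
    have := (e i).2
    simpa only [Finset.mem_inter, SimpleGraph.mem_neighborFinset] using this
  let f : Fin 2 ⊕ Fin k → V := Sum.elim ![u, v] (fun i => (e i : V))
  have hf0 : f (Sum.inl 0) = u := rfl
  have hf1 : f (Sum.inl 1) = v := rfl
  have hfr : ∀ i, f (Sum.inr i) = e i := fun i => rfl
  have hadj : ∀ {x y}, (book k).Adj x y → G.Adj (f x) (f y) := by
    intro x y hxy
    obtain ⟨hne, hl⟩ := hxy
    rcases x with x | x <;> rcases y with y | y
    · fin_cases x <;> fin_cases y
      · exact absurd rfl hne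
      · exact huv
      · exact huv.symm
      · exact absurd rfl hne
    · fin_cases x
      · exact (he y).1
      · exact (he y).2
    · fin_cases y
      · exact (he x).1.symm
      · exact (he x).2.symm
    · simp at hl
  refine ⟨⟨⟨f, hadj⟩, ?_⟩⟩
  intro x y hxy
  change f x = f y at hxy
  rcases x with x | x <;> rcases y with y | y
  · fin_cases x <;> fin_cases y
    · rfl
    · exact absurd hxy huv.ne
    · exact absurd hxy.symm huv.ne
    · rfl
  · exfalso
    fin_cases x
    · exact (he y).1.ne hxy
    · exact (he y).2.ne hxy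
  · exfalso
    fin_cases y
    · exact (he x).1.ne hxy.symm
    · exact (he x).2.ne hxy.symm
  · rw [hfr, hfr] at hxy
    rw [e.injective (Subtype.ext hxy)]

theorem cyc_adj (i : Fin 5) : (cycleGraph 5).Adj i (i + 1) := by
  revert i
  simp only [cycleGraph_adj]
  decide

theorem cyc_adj_iff (i j : Fin 5) : (cycleGraph 5).Adj i j ↔ (j = i + 1 ∨ j = i - 1) := by
  rw [cycleGraph_adj]
  revert i j
  decide

/-- The ten automorphisms of the 5-cycle. -/
def aut (q : Fin 5 × Bool) (i : Fin 5) : Fin 5 := q.1 + (bif q.2 then 1 else 4) * i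

theorem aut_surj : ∀ (q : Fin 5 × Bool) (j : Fin 5), ∃ i, aut q i = j := by decide

theorem aut_adj : ∀ (q : Fin 5 × Bool) (i j : Fin 5), (j = i + 1 ∨ j = i - 1) ↔
    (aut q j = aut q i + 1 ∨ aut q j = aut q i - 1) := by decide +kernel

theorem aut_inj : ∀ (q : Fin 5 × Bool) (i j : Fin 5), aut q i = aut q j → i = j := by
  decide +kernel

theorem aut_eq : ∀ q q' : Fin 5 × Bool, aut q 0 = aut q' 0 → aut q 1 = aut q' 1 → q = q' := by
  decide +kernel

/-- A copy composed with an automorphism. -/
def twist {V : Type*} {G : SimpleGraph V} (f : Copy (cycleGraph 5) G) (q : Fin 5 × Bool) :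
    Copy (cycleGraph 5) G where
  toHom := ⟨fun i => f (aut q i), by
    intro i j hij
    apply f.toHom.map_adj
    rw [cyc_adj_iff] at hij ⊢
    exact (aut_adj q i j).mp hij⟩
  injective' := by
    intro i j hij
    exact aut_inj q i j (f.injective hij)

theorem twist_apply {V : Type*} {G : SimpleGraph V} (f : Copy (cycleGraph 5) G) (q : Fin 5 × Bool)
    (i : Fin 5) : twist f q i = f (aut q i) := rfl

theorem toSubgraph_adj {V : Type*} {G : SimpleGraph V} (f : Copy (cycleGraph 5) G) (u v : V) :
    f.toSubgraph.Adj u v ↔ ∃ i j, (cycleGraph 5).Adj i j ∧ f i = u ∧ f j = v := by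
  simp [Copy.toSubgraph, Relation.Map]

theorem twist_toSubgraph {V : Type*} {G : SimpleGraph V} (f : Copy (cycleGraph 5) G)
    (q : Fin 5 × Bool) : (twist f q).toSubgraph = f.toSubgraph := by
  ext u v
  · simp only [Copy.toSubgraph, Subgraph.map_verts, Subgraph.verts_top, Set.image_univ,
      Set.mem_range]
    constructor
    · rintro ⟨i, rfl⟩
      exact ⟨aut q i, rfl⟩
    · rintro ⟨j, rfl⟩
      obtain ⟨i, rfl⟩ := aut_surj q j
      exact ⟨i, rfl⟩
  · rw [toSubgraph_adj, toSubgraph_adj]
    constructor
    · rintro ⟨i, j, hij, rfl, rfl⟩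
      refine ⟨aut q i, aut q j, ?_, rfl, rfl⟩
      rw [cyc_adj_iff] at hij ⊢
      exact (aut_adj q i j).mp hij
    · rintro ⟨i', j', hij, rfl, rfl⟩
      obtain ⟨i, rfl⟩ := aut_surj q i'
      obtain ⟨j, rfl⟩ := aut_surj q j'
      refine ⟨i, j, ?_, rfl, rfl⟩
      rw [cyc_adj_iff] at hij ⊢
      exact (aut_adj q i j).mpr hij

/-- Ten labelled 5-cycles for each pentagon. -/
theorem ten_mul_copyCount_le {V : Type*} [Fintype V] [DecidableEq V] (G : SimpleGraph V)
    [DecidableRel G.Adj] : 10 * G.copyCount (cycleGraph 5) ≤ (cyc5 G).card := by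
  classical
  rw [copyCount_eq_card_image_copyToSubgraph]
  have h1 : 10 * (((univ : Finset (Copy (cycleGraph 5) G))).image Copy.toSubgraph).card ≤
      (univ : Finset (Copy (cycleGraph 5) G)).card := by
    apply Finset.mul_card_image_le_card
    intro S hS
    obtain ⟨f, _, rfl⟩ := Finset.mem_image.mp hS
    have h2 : (univ : Finset (Fin 5 × Bool)).card = 10 := by decide
    rw [← h2]
    refine Finset.card_le_card_of_injOn (fun q => twist f q) ?_ ?_
    · intro q _
      simp only [Finset.coe_filter, Finset.mem_univ, true_and]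
      exact twist_toSubgraph f q
    · intro q _ q' _ h
      have h0 : f (aut q 0) = f (aut q' 0) := by
        rw [← twist_apply, ← twist_apply]; exact DFunLike.congr_fun h 0
      have h1 : f (aut q 1) = f (aut q' 1) := by
        rw [← twist_apply, ← twist_apply]; exact DFunLike.congr_fun h 1
      exact aut_eq q q' (f.injective h0) (f.injective h1)
  refine h1.trans ?_
  refine Finset.card_le_card_of_injOn (fun f => (f : Fin 5 → V)) ?_ ?_
  · intro f _
    rw [Finset.mem_coe, mem_cyc5]
    exact ⟨f.injective, fun i => f.toHom.map_adj (cyc_adj i)⟩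
  · intro f _ g _ h
    exact DFunLike.coe_injective h

/-- The balanced blow-up of the pentagon. -/
def blowup (n : ℕ) : SimpleGraph (Fin n) where
  Adj a b := (b.val % 5 = (a.val + 1) % 5) ∨ (a.val % 5 = (b.val + 1) % 5)
  symm := ⟨fun _ _ h => h.symm⟩
  loopless := ⟨fun a h => by rcases h with h | h <;> omega⟩

theorem blowup_free {n k : ℕ} (hk : 1 ≤ k) : (book k).Free (blowup n) := by
  rintro ⟨f⟩
  have h1 : (book k).Adj (Sum.inl 0) (Sum.inl 1) := ⟨by simp, by simp⟩
  have h2 : (book k).Adj (Sum.inl 0) (Sum.inr ⟨0, hk⟩) := ⟨by simp, by simp⟩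
  have h3 : (book k).Adj (Sum.inl 1) (Sum.inr ⟨0, hk⟩) := ⟨by simp, by simp⟩
  have g1 := f.toHom.map_adj h1
  have g2 := f.toHom.map_adj h2
  have g3 := f.toHom.map_adj h3
  simp only [blowup] at g1 g2 g3
  omega

/-- The classes of the blow-up. -/
def part (n : ℕ) (i : Fin 5) : Finset (Fin n) := univ.filter fun a => a.val % 5 = i.val

theorem part_card (n : ℕ) (i : Fin 5) : (part n i).card = (n + 4 - i.val) / 5 := by
  have h : (part n i).card = ((range n).filter fun a => a % 5 = i.val).card := by
    unfold part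
    rw [← Finset.card_map Fin.valEmbedding]
    congr 1
    ext a
    simp only [Finset.mem_map, Finset.mem_filter, Finset.mem_univ, true_and,
      Fin.valEmbedding_apply, Finset.mem_range]
    constructor
    · rintro ⟨b, hb, rfl⟩
      exact ⟨b.isLt, hb⟩
    · rintro ⟨h1, h2⟩
      exact ⟨⟨a, h1⟩, h2, rfl⟩
  rw [h]
  clear h
  have hi := i.isLt
  induction n with
  | zero => simp; omega
  | succ n ih =>
    rw [Finset.range_add_one, Finset.filter_insert]
    split_ifs with hc
    · rw [Finset.card_insert_of_notMem (by simp), ih]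
      omega
    · rw [ih]
      omega

theorem prod_part (n : ℕ) : ∏ i, (part n i).card = P5 n := by
  unfold P5
  simp only [part_card, Fin.prod_univ_five, Finset.prod_range_succ, Finset.prod_range_zero, one_mul]
  have e0 : ((0 : Fin 5) : ℕ) = 0 := rfl
  have e1 : ((1 : Fin 5) : ℕ) = 1 := rfl
  have e2 : ((2 : Fin 5) : ℕ) = 2 := rfl
  have e3 : ((3 : Fin 5) : ℕ) = 3 := rfl
  have e4 : ((4 : Fin 5) : ℕ) = 4 := rfl
  rw [e0, e1, e2, e3, e4, show n + 4 - 0 = n + 4 by omega, show n + 4 - 1 = n + 3 by omega,
    show n + 4 - 2 = n + 2 by omega, show n + 4 - 3 = n + 1 by omega,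
    show n + 4 - 4 = n + 0 by omega]
  ring

/-- The copy of the pentagon given by a transversal. -/
def transCopy {n : ℕ} (y : Fin 5 → Fin n) (hy : ∀ i, y i ∈ part n i) :
    Copy (cycleGraph 5) (blowup n) where
  toHom := ⟨y, by
    intro i j hij
    rw [cyc_adj_iff] at hij
    have h1 : (y i).val % 5 = i.val := by simpa [part] using hy i
    have h2 : (y j).val % 5 = j.val := by simpa [part] using hy j
    change ((y j).val % 5 = ((y i).val + 1) % 5) ∨ ((y i).val % 5 = ((y j).val + 1) % 5)
    have key : ∀ i j : Fin 5, (j = i + 1 ∨ j = i - 1) →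
        (j.val = (i.val + 1) % 5 ∨ i.val = (j.val + 1) % 5) := by decide
    have := key i j hij
    omega⟩
  injective' := by
    intro i j hij
    have h1 : (y i).val % 5 = i.val := by simpa [part] using hy i
    have h2 : (y j).val % 5 = j.val := by simpa [part] using hy j
    have hij' : y i = y j := hij
    apply Fin.ext
    rw [← h1, ← h2, hij']

theorem le_copyCount_blowup (n : ℕ) : P5 n ≤ (blowup n).copyCount (cycleGraph 5) := by
  classical
  rw [copyCount_eq_card_image_copyToSubgraph, ← prod_part, ← Fintype.card_piFinset]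
  have hmem : ∀ y ∈ Fintype.piFinset (part n), ∀ i, y i ∈ part n i := fun y hy =>
    Fintype.mem_piFinset.mp hy
  refine Finset.card_le_card_of_injOn
    (fun y => if hy : ∀ i, y i ∈ part n i then (transCopy y hy).toSubgraph else ⊥) ?_ ?_
  · intro y hy
    have hy' := hmem y hy
    simp only [hy', implies_true, dite_true]
    rw [Finset.mem_coe]
    exact Finset.mem_image_of_mem _ (Finset.mem_univ _)
  · intro y hy z hz h
    have hy' := hmem y hy
    have hz' := hmem z hz
    simp only [hy', hz', implies_true, dite_true] at h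
    have hv : ∀ i, ∃ j, z j = y i := by
      intro i
      have h1 : y i ∈ (transCopy y hy').toSubgraph.verts := by
        simp only [Copy.toSubgraph, Subgraph.map_verts, Subgraph.verts_top, Set.image_univ,
          Set.mem_range]
        exact ⟨i, rfl⟩
      rw [h] at h1
      simp only [Copy.toSubgraph, Subgraph.map_verts, Subgraph.verts_top, Set.image_univ,
        Set.mem_range] at h1
      exact h1
    funext i
    obtain ⟨j, hj⟩ := hv i
    have h1 : (y i).val % 5 = i.val := by simpa [part] using hy' i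
    have h2 : (z j).val % 5 = j.val := by simpa [part] using hz' j
    rw [hj, h1] at h2
    rw [← hj, Fin.ext h2]

/-- **Exact value of `ex(n, C₅, B_k)` for all `n ≥ 2·10¹⁹·k`.** -/
theorem result (k : ℕ) (hk : 1 ≤ k) (n : ℕ) (hn : 2 * 10 ^ 19 * k ≤ n) :
    IsGreatest {m : ℕ | ∃ G : SimpleGraph (Fin n), (book k).Free G ∧
      G.copyCount (cycleGraph 5) = m} (∏ i ∈ Finset.range 5, (n + i) / 5) := by
  classical
  have hub : ∀ G : SimpleGraph (Fin n), (book k).Free G → G.copyCount (cycleGraph 5) ≤ P5 n := by
    intro G hG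
    have h1 := ten_mul_copyCount_le G
    have h2 := main_bound G (k := k) (by rw [Fintype.card_fin]; omega) (codeg_of_free G hG)
    rw [Fintype.card_fin] at h2
    omega
  refine ⟨⟨blowup n, blowup_free hk, ?_⟩, ?_⟩
  · exact le_antisymm (hub _ (blowup_free hk)) (le_copyCount_blowup n)
  · rintro m ⟨G, hG, rfl⟩
    exact hub G hG

end Pool.Agent.Results.MP_880c07_co.PentagonsBooks
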